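import Pool.Agent.H13.L.R3da.NH47.AZ.Coset2

set_option autoImplicit false
set_option linter.unusedSectionVars false

open scoped ENNReal

/-! The zero divisor property and co-amenable subgroups. -/

namespace Pool.Agent.NH47.AZ

open W649.ZL

universe u v w

section
variable {G : Type u} [Group G] (H : Subgroup G)

theorem kdim_nonneg' (α : G →₀ ℂ) : 0 ≤ kdim α := by
  rw [kdim_eq_vd]
  exact vd_nonneg _

theorem kdim_le_one' (α : G →₀ ℂ) : kdim α ≤ 1 := by
  unfold kdim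
  exact sub_le_self _ (sq_nonneg _)

/-- approximation -/
theorem approx (Y : Finset (G ⧸ H)) (hY : Y.Nonempty) (α : G →₀ ℂ) (ε : ℝ)
    (h : ((prodY H α.support Y).card : ℝ) ≤ (1 + ε) * Y.card) (hε : 0 ≤ ε) :
    kdim α - ε ≤ kdimOn H Y α / Y.card := by
  have h1 := lower_bd H Y α
  have h2 : (0 : ℝ) < Y.card := by exact_mod_cast Finset.card_pos.2 hY
  have h3 := kdim_nonneg' α
  have h4 := kdim_le_one' α
  rw [le_div_iff₀ h2]
  have h5 : ((prodY H α.support Y).card : ℝ) * (1 - kdim α) ≤ (1 + ε) * Y.card * (1 - kdim α) :=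
    mul_le_mul_of_nonneg_right h (by linarith)
  have h6 : 0 ≤ ε * Y.card * kdim α := by positivity
  nlinarith

/-- a function with a coset on which only one coset of it matters -/
theorem unique_coset (α : G →₀ ℂ) (f : lp (fun _ : G => ℂ) 2)
    (hf : ∀ g : G, ∑ k ∈ α.support, α k * f (k⁻¹ * g) = 0)
    (b c : G) (s₀ : G) (hs₀ : s₀ ∈ α.support) (hc : c⁻¹ * (s₀ * b) ∈ H)
    (hu : ∀ s ∈ α.support, ∀ x : G, f x ≠ 0 → c⁻¹ * (s * x) ∈ H → b⁻¹ * x ∈ H)
    (hH : ∀ β : H →₀ ℂ, β ≠ 0 → ∀ f : H → ℂ, Memℓp f 2 → f ≠ 0 →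
      ∃ g : H, ∑ k ∈ β.support, β k * f (k⁻¹ * g) ≠ 0) :
    ∀ x : G, b⁻¹ * x ∈ H → f x = 0 := by
  classical
  -- β(k) = α(c k b⁻¹)
  have hinj : Function.Injective (fun k : H => c * (k : G) * b⁻¹) := by
    intro k l h
    have h1 : c * (k : G) * b⁻¹ = c * (l : G) * b⁻¹ := h
    exact Subtype.ext (mul_left_cancel (mul_right_cancel h1))
  set β : H →₀ ℂ := α.comapDomain (fun k : H => c * (k : G) * b⁻¹) hinj.injOn with hβ
  have hβv : ∀ k : H, β k = α (c * k * b⁻¹) := fun k => rfl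
  have hβ0 : β ≠ 0 := by
    intro h0
    have h1 := hβv ⟨_, hc⟩
    rw [h0] at h1
    have h2 : c * (c⁻¹ * (s₀ * b)) * b⁻¹ = s₀ := by group
    change (0 : ℂ) = α (c * (c⁻¹ * (s₀ * b)) * b⁻¹) at h1
    rw [h2] at h1
    exact (Finsupp.mem_support_iff.1 hs₀) h1.symm
  set fb : H → ℂ := fun h => f (b * h) with hfb
  have hmem : Memℓp fb 2 := by
    rw [memlp_two_iff]
    have h1 := (memlp_two_iff _).1 f.2
    exact h1.comp_injective (i := fun h : H => b * (h : G)) (fun x y hxy =>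
      Subtype.ext (mul_left_cancel hxy))
  have hfb0 : fb = 0 := by
    by_contra hne
    obtain ⟨g, hg⟩ := hH β hβ0 fb hmem hne
    apply hg
    rw [← hf (c * g)]
    -- rewrite both sums
    have h1 : ∑ k ∈ β.support, β k * fb (k⁻¹ * g)
        = ∑ s ∈ α.support.filter (fun s => c⁻¹ * (s * b) ∈ H), α s * f (s⁻¹ * (c * g)) := by
      refine Finset.sum_bij (fun k _ => c * (k : G) * b⁻¹) ?_ ?_ ?_ ?_
      · intro k hk
        rw [Finset.mem_filter]
        refine ⟨?_, ?_⟩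
        · rw [Finsupp.mem_support_iff] at hk ⊢
          exact hk
        · have : c⁻¹ * (c * (k : G) * b⁻¹ * b) = k := by group
          rw [this]; exact k.2
      · intro k _ l _ h
        exact hinj h
      · intro s hs
        rw [Finset.mem_filter] at hs
        refine ⟨⟨_, hs.2⟩, ?_, ?_⟩
        · rw [Finsupp.mem_support_iff, hβv]
          change α (c * (c⁻¹ * (s * b)) * b⁻¹) ≠ 0
          have : c * (c⁻¹ * (s * b)) * b⁻¹ = s := by group
          rw [this]; exact Finsupp.mem_support_iff.1 hs.1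
        · change c * (c⁻¹ * (s * b)) * b⁻¹ = s
          group
      · intro k hk
        rw [hβv]
        have h2 : fb (k⁻¹ * g) = f ((c * (k : G) * b⁻¹)⁻¹ * (c * g)) := by
          change f (b * ((k : G)⁻¹ * g)) = _
          have h3 : b * ((k : G)⁻¹ * g) = (c * (k : G) * b⁻¹)⁻¹ * (c * g) := by group
          rw [h3]
        rw [h2]
    rw [h1, Finset.sum_filter]
    refine Finset.sum_congr rfl fun s hs => ?_
    split_ifs with h3
    · rfl
    · symm
      by_contra hne2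
      have h4 : f (s⁻¹ * (c * g)) ≠ 0 := right_ne_zero_of_mul hne2
      have h5 := hu s hs (s⁻¹ * (c * g)) h4 (by
        have : c⁻¹ * (s * (s⁻¹ * (c * (g : G)))) = g := by group
        rw [this]; exact g.2)
      apply h3
      have h6 : c⁻¹ * (s * b) = g * (b⁻¹ * (s⁻¹ * (c * g)))⁻¹ := by group
      rw [h6]
      exact H.mul_mem g.2 (H.inv_mem h5)
  intro x hx
  have h1 := congrFun hfb0 ⟨_, hx⟩
  change f (b * (b⁻¹ * x)) = 0 at h1
  rwa [mul_inv_cancel_left] at h1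

/-- unique products of a finite set with a finite set of cosets -/
def UCP : Prop := ∀ (S : Finset G) (B : Finset (G ⧸ H)), S.Nonempty → B.Nonempty →
  ∃ c : G ⧸ H, ∃! b : G ⧸ H, b ∈ B ∧ ∃ s ∈ S, s • b = c

theorem kernOn_trivial (hU : UCP H)
    (hH : ∀ β : H →₀ ℂ, β ≠ 0 → ∀ f : H → ℂ, Memℓp f 2 → f ≠ 0 →
      ∃ g : H, ∑ k ∈ β.support, β k * f (k⁻¹ * g) ≠ 0)
    (α : G →₀ ℂ) (hα : α ≠ 0) (Y : Finset (G ⧸ H)) : ∀ f ∈ kernOn H Y α, f = 0 := by
  classical
  rintro f ⟨hf, hfY⟩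
  by_contra hne
  -- cosets where f is nonzero
  set B : Finset (G ⧸ H) := Y.filter (fun y => ∃ x : G, f x ≠ 0 ∧ (QuotientGroup.mk x : G ⧸ H) = y)
    with hB
  have hBm : ∀ x : G, f x ≠ 0 → (QuotientGroup.mk x : G ⧸ H) ∈ B := fun x hx =>
    Finset.mem_filter.2 ⟨hfY x hx, x, hx, rfl⟩
  have hBne : B.Nonempty := by
    obtain ⟨x, hx⟩ : ∃ x, f x ≠ 0 := by
      by_contra hcon
      push Not at hcon
      apply hne
      apply lp.ext
      funext x
      exact hcon x
    exact ⟨_, hBm x hx⟩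
  obtain ⟨c, b, ⟨hb, s₀, hs₀, hsb⟩, huniq⟩ := hU α.support B (Finsupp.support_nonempty_iff.2 hα) hBne
  obtain ⟨x₀, hx₀, hxb⟩ := (Finset.mem_filter.1 hb).2
  subst hxb
  set d : G := s₀ * x₀ with hd
  have hcd : c = QuotientGroup.mk d := by rw [← hsb]; rfl
  have h1 := unique_coset H α f hf x₀ d s₀ hs₀ (by rw [hd, inv_mul_cancel]; exact H.one_mem) (by
    intro s hs x hx hmem
    have h2 : s • (QuotientGroup.mk x : G ⧸ H) = c := by
      rw [hcd]
      exact (QuotientGroup.eq.2 hmem).symm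
    have h3 := huniq (QuotientGroup.mk x) ⟨hBm x hx, s, hs, h2⟩
    exact QuotientGroup.eq.1 h3.symm) hH x₀ (by rw [inv_mul_cancel]; exact H.one_mem)
  exact hx₀ h1

theorem UCP_of_order (r : LinearOrder (G ⧸ H)) (hr : ∀ (g : G) (x y : G ⧸ H), x ≤ y → g • x ≤ g • y) :
    UCP H := by
  intro S B hS hB
  classical
  -- max element of B
  obtain ⟨b, hb, hbmax⟩ := B.exists_max_image id hB
  obtain ⟨s, hs, hsmax⟩ := S.exists_max_image (fun s => s • b) hS
  refine ⟨s • b, b, ⟨hb, s, hs, rfl⟩, ?_⟩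
  rintro y ⟨hy, t, ht, hty⟩
  have h1 : t • y ≤ t • b := hr t y b (hbmax y hy)
  have h2 : t • b ≤ s • b := hsmax t ht
  rw [hty] at h1
  have h3 : t • b = s • b := le_antisymm h2 h1
  rw [← h3] at hty
  exact MulAction.injective t hty

theorem UCP_of_uniqueProds [H.Normal] [UniqueProds (G ⧸ H)] : UCP H := by
  classical
  intro S B hS hB
  obtain ⟨a, ha, b, hb, hu⟩ := UniqueProds.uniqueMul_of_nonempty
    (hS.image (fun s : G => (QuotientGroup.mk s : G ⧸ H))) hB
  refine ⟨a * b, b, ⟨hb, ?_⟩, ?_⟩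
  · obtain ⟨s, hs, rfl⟩ := Finset.mem_image.1 ha
    refine ⟨s, hs, ?_⟩
    induction b using QuotientGroup.induction_on with
    | H b => rfl
  · rintro y ⟨hy, t, ht, hty⟩
    have h1 : (QuotientGroup.mk t : G ⧸ H) * y = a * b := by
      rw [← hty]
      induction y using QuotientGroup.induction_on with
      | H y => rfl
    exact (hu (Finset.mem_image_of_mem _ ht) hy h1).2

end

end Pool.Agent.NH47.AZ
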