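import Pool.Agent.H13.L.S8.W649.ZL.Supp

set_option autoImplicit false
set_option linter.unusedSectionVars false

open scoped ENNReal

/-! Kernel dimensions: subgroups, translates, faces. -/

namespace Pool.Agent.NH47.AZ

open W649.ZL

universe u

section
variable {G : Type u} [Group G]

open Classical in
/-- kernel dimension -/
noncomputable def kdim (α : G →₀ ℂ) : ℝ :=
  1 - Metric.infDist (lp.single 2 (1 : G) (1 : ℂ)) (kern α) ^ 2

theorem kdim_eq_vd (α : G →₀ ℂ) : kdim α
      = vd (LinearMap.ker (cop α : EE G Unit →ₗ[ℂ] EE G Unit)) := kerDim_eq_vd α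

theorem lp_norm_sq {ι : Type u} (f : lp (fun _ : ι => ℂ) 2) : ‖f‖ ^ 2 = ∑' i, ‖f i‖ ^ 2 := by
  have h := lp.norm_rpow_eq_tsum (p := 2) (by norm_num) f
  simpa using h

theorem memlp2 {ι : Type u} (f : ι → ℂ) : Memℓp f 2 ↔ Summable fun i => ‖f i‖ ^ 2 := by
  rw [memℓp_gen_iff (by norm_num)]
  simp

/-- restriction to a subgroup -/
noncomputable def rst (K : Subgroup G) (f : lp (fun _ : G => ℂ) 2) : lp (fun _ : K => ℂ) 2 :=
  ⟨fun k => f (k : G), by
    have h := (memlp2 _).1 f.2
    exact (memlp2 _).2 (h.comp_injective (i := fun k : K => (k : G)) Subtype.val_injective)⟩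

open Classical in
/-- extension by zero -/
noncomputable def ext0 (K : Subgroup G) (f : lp (fun _ : K => ℂ) 2) : lp (fun _ : G => ℂ) 2 :=
  ⟨fun g => if h : g ∈ K then f ⟨g, h⟩ else 0, by
    have h := (memlp2 _).1 f.2
    refine (memlp2 _).2 ?_
    refine (Function.Injective.summable_iff (g := fun k : K => (k : G)) Subtype.val_injective
      (fun x hx => ?_)).1 ?_
    · by_cases hK : x ∈ K
      · exact absurd ⟨⟨x, hK⟩, rfl⟩ hx
      · simp [hK]
    · refine h.congr fun k => ?_
      simp⟩

theorem rst_apply (K : Subgroup G) (f : lp (fun _ : G => ℂ) 2) (k : K) : rst K f k = f (k : G) := rfl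

theorem ext0_mem (K : Subgroup G) (f : lp (fun _ : K => ℂ) 2) (g : G) (h : g ∈ K) :
    ext0 K f g = f ⟨g, h⟩ := by
  classical
  unfold ext0
  exact dif_pos h

theorem ext0_not (K : Subgroup G) (f : lp (fun _ : K => ℂ) 2) (g : G) (h : g ∉ K) :
    ext0 K f g = 0 := by
  classical
  unfold ext0
  exact dif_neg h

theorem norm_rst_le (K : Subgroup G) (f : lp (fun _ : G => ℂ) 2) : ‖rst K f‖ ≤ ‖f‖ := by
  have h : ‖rst K f‖ ^ 2 ≤ ‖f‖ ^ 2 := by
    rw [lp_norm_sq, lp_norm_sq]
    exact tsum_comp_le_tsum_of_inj ((memlp2 _).1 f.2) (fun _ => sq_nonneg _)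
      (i := fun k : K => (k : G)) Subtype.val_injective
  exact le_of_sq_le_sq h (norm_nonneg _) 

theorem norm_ext0 (K : Subgroup G) (f : lp (fun _ : K => ℂ) 2) : ‖ext0 K f‖ = ‖f‖ := by
  have h : ‖ext0 K f‖ ^ 2 = ‖f‖ ^ 2 := by
    rw [lp_norm_sq, lp_norm_sq]
    rw [← Function.Injective.tsum_eq (g := fun k : K => (k : G)) Subtype.val_injective]
    · refine tsum_congr fun k => ?_
      rw [ext0_mem K f (k : G) k.2]
    · intro g hg
      by_cases hK : g ∈ K
      · exact ⟨⟨g, hK⟩, rfl⟩
      · exfalso; apply hg; simp [ext0_not K f g hK]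
  exact (sq_eq_sq₀ (norm_nonneg _) (norm_nonneg _)).1 h

theorem kern_nonempty (α : G →₀ ℂ) : (kern α).Nonempty := ⟨0, fun g => by simp⟩

/-- the element, restricted to a subgroup containing its support -/
noncomputable def res (K : Subgroup G) (α : G →₀ ℂ) : K →₀ ℂ :=
  α.comapDomain (Subtype.val : K → G) Subtype.val_injective.injOn

theorem res_apply (K : Subgroup G) (α : G →₀ ℂ) (k : K) : res K α k = α (k : G) := rfl

theorem mem_res_support (K : Subgroup G) (α : G →₀ ℂ) (k : K) :
    k ∈ (res K α).support ↔ (k : G) ∈ α.support := by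
  rw [res, Finsupp.comapDomain_support, Finset.mem_preimage]

theorem sum_res (K : Subgroup G) (α : G →₀ ℂ) (hα : ∀ x ∈ α.support, x ∈ K) (F : G → ℂ) :
    ∑ k ∈ (res K α).support, res K α k * F (k : G) = ∑ k ∈ α.support, α k * F k := by
  classical
  refine Finset.sum_bij (fun t _ => (t : G)) ?_ ?_ ?_ ?_
  · intro t ht
    exact (mem_res_support K α t).1 ht
  · intro a _ b _ hab
    exact Subtype.ext hab
  · intro b hb
    exact ⟨⟨b, hα b hb⟩, (mem_res_support K α _).2 hb, rfl⟩
  · intro t _
    rfl

theorem infDist_res (K : Subgroup G) (α : G →₀ ℂ) (hα : ∀ x ∈ α.support, x ∈ K)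
    (dG : DecidableEq G) (dK : DecidableEq K) :
    Metric.infDist (lp.single 2 (1 : G) (1 : ℂ)) (kern α)
      = Metric.infDist (lp.single 2 (1 : K) (1 : ℂ)) (kern (res K α)) := by
  have h1 : rst K (lp.single 2 (1 : G) (1 : ℂ)) = lp.single 2 (1 : K) (1 : ℂ) := by
    apply lp.ext
    funext k
    rw [rst_apply, lp.coeFn_single, lp.coeFn_single]
    by_cases hk : k = 1
    · subst hk; simp
    · rw [Pi.single_eq_of_ne hk, Pi.single_eq_of_ne]
      intro h
      exact hk (Subtype.ext h)
  have h2 : ext0 K (lp.single 2 (1 : K) (1 : ℂ)) = lp.single 2 (1 : G) (1 : ℂ) := by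
    apply lp.ext
    funext g
    rw [lp.coeFn_single]
    by_cases hg : g ∈ K
    · rw [ext0_mem K _ g hg, lp.coeFn_single]
      by_cases h1 : g = 1
      · subst h1
        rw [Pi.single_eq_same]
        exact Pi.single_eq_same (M := fun _ : K => ℂ) (1 : K) (1 : ℂ)
      · rw [Pi.single_eq_of_ne h1, Pi.single_eq_of_ne]
        intro h
        exact h1 (congrArg Subtype.val h)
    · rw [ext0_not K _ g hg, Pi.single_eq_of_ne]
      rintro rfl
      exact hg K.one_mem
  have hrs : ∀ a b : lp (fun _ : G => ℂ) 2, rst K (a - b) = rst K a - rst K b := fun a b => rfl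
  have hes : ∀ a b : lp (fun _ : K => ℂ) 2, ext0 K (a - b) = ext0 K a - ext0 K b := by
    intro a b
    apply lp.ext
    funext g
    rw [lp.coeFn_sub, Pi.sub_apply]
    by_cases hg : g ∈ K
    · rw [ext0_mem K _ g hg, ext0_mem K _ g hg, ext0_mem K _ g hg]
      rfl
    · rw [ext0_not K _ g hg, ext0_not K _ g hg, ext0_not K _ g hg, sub_zero]
  apply le_antisymm
  · rw [Metric.le_infDist (kern_nonempty _)]
    intro f hf
    have hmem : ext0 K f ∈ kern α := by
      intro g
      by_cases hg : g ∈ K
      · have h4 := hf ⟨g, hg⟩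
        rw [← sum_res K α hα]
        rw [← h4]
        refine Finset.sum_congr rfl fun k _ => ?_
        rw [ext0_mem K f ((k : G)⁻¹ * g) (K.mul_mem (K.inv_mem k.2) hg)]
        rfl
      · apply Finset.sum_eq_zero
        intro k hk
        rw [ext0_not K f, mul_zero]
        intro h5
        apply hg
        have := K.mul_mem (hα k hk) h5
        rwa [mul_inv_cancel_left] at this
    refine (Metric.infDist_le_dist_of_mem hmem).trans ?_
    rw [dist_eq_norm, dist_eq_norm, ← h2, ← hes, norm_ext0]
  · rw [Metric.le_infDist (kern_nonempty _)]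
    intro f hf
    have hmem : rst K f ∈ kern (res K α) := by
      intro g
      have h4 := hf (g : G)
      rw [← sum_res K α hα] at h4
      rw [← h4]
      refine Finset.sum_congr rfl fun k _ => ?_
      rw [rst_apply]
      rfl
    refine (Metric.infDist_le_dist_of_mem hmem).trans ?_
    rw [dist_eq_norm, dist_eq_norm, ← h1, ← hrs]
    exact norm_rst_le K _

theorem kdim_subgroup (K : Subgroup G) (α : G →₀ ℂ) (hα : ∀ x ∈ α.support, x ∈ K) :
    kdim α = kdim (res K α) :=
  congrArg (fun x : ℝ => 1 - x ^ 2) (infDist_res K α hα _ _)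

theorem kdim_translate (t : G) (α : G →₀ ℂ) : kdim (α.mapDomain (fun x => t * x)) = kdim α := by
  classical
  have h : kern (α.mapDomain (fun x => t * x)) = kern α := by
    have hinj : Function.Injective (fun x : G => t * x) := mul_right_injective t
    have key : ∀ (f : lp (fun _ : G => ℂ) 2) (g : G),
        ∑ k ∈ (α.mapDomain (fun x => t * x)).support,
          (α.mapDomain (fun x => t * x)) k * f (k⁻¹ * g)
          = ∑ k ∈ α.support, α k * f (k⁻¹ * (t⁻¹ * g)) := by
      intro f g
      rw [Finsupp.mapDomain_support_of_injective hinj, Finset.sum_image (fun a _ b _ h => hinj h)]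
      refine Finset.sum_congr rfl fun k _ => ?_
      rw [Finsupp.mapDomain_apply hinj, mul_inv_rev, mul_assoc]
    ext f
    constructor
    · intro h g
      have := h (t * g)
      rw [key, inv_mul_cancel_left] at this
      exact this
    · intro h g
      rw [key]
      exact h _
  unfold kdim
  rw [h]

/-- the part of an element on a finite set -/
noncomputable def part (α : G →₀ ℂ) (S : Finset G) : G →₀ ℂ := by
  classical exact α.filter (fun x => x ∈ S)

theorem part_apply_mem (α : G →₀ ℂ) (S : Finset G) (x : G) (h : x ∈ S) : part α S x = α x := by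
  classical
  unfold part
  exact Finsupp.filter_apply_pos _ _ h

theorem part_apply_not (α : G →₀ ℂ) (S : Finset G) (x : G) (h : x ∉ S) : part α S x = 0 := by
  classical
  unfold part
  exact Finsupp.filter_apply_neg _ _ h

/-- the subgroup generated by the quotients -/
def quo (S : Finset G) (t : G) : Subgroup G := Subgroup.closure ((fun s => t⁻¹ * s) '' (S : Set G))

theorem quo_fg (S : Finset G) (t : G) : (quo S t).FG := by
  classical
  exact ⟨S.image (fun s => t⁻¹ * s), by rw [Finset.coe_image]; rfl⟩

theorem mem_quo (S : Finset G) (t s : G) (h : s ∈ S) : t⁻¹ * s ∈ quo S t :=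
  Subgroup.subset_closure ⟨s, h, rfl⟩

/-- Passing to a face. -/
theorem face (α : G →₀ ℂ) (S : Finset G) (t : G) (e : quo S t → ℤ)
    (he : ∀ x y, e (x * y) = e x + e y) (m : ℤ) (hm : ∀ s (hs : s ∈ S), m ≤ e ⟨_, mem_quo S t s hs⟩)
    (S' : Finset G) (hS' : ∀ s, s ∈ S' ↔ ∃ hs : s ∈ S, e ⟨_, mem_quo S t s hs⟩ = m) :
    kdim (part α S) ≤ kdim (part α S') := by
  classical
  have hinj : Function.Injective (fun x : G => t⁻¹ * x) := mul_right_injective t⁻¹
  have hsupp : ∀ (R : Finset G), ∀ x ∈ ((part α R).mapDomain (fun x => t⁻¹ * x)).support,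
      ∃ s ∈ R, x = t⁻¹ * s := by
    intro R x hx
    rw [Finsupp.mapDomain_support_of_injective hinj, Finset.mem_image] at hx
    obtain ⟨s, hs, rfl⟩ := hx
    refine ⟨s, ?_, rfl⟩
    by_contra hne
    exact (Finsupp.mem_support_iff.1 hs) (part_apply_not α R s hne)
  have hSK : ∀ x ∈ ((part α S).mapDomain (fun x => t⁻¹ * x)).support, x ∈ quo S t := by
    intro x hx
    obtain ⟨s, hs, rfl⟩ := hsupp S x hx
    exact mem_quo S t s hs
  have hS'K : ∀ x ∈ ((part α S').mapDomain (fun x => t⁻¹ * x)).support, x ∈ quo S t := by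
    intro x hx
    obtain ⟨s, hs, rfl⟩ := hsupp S' x hx
    exact mem_quo S t s ((hS' s).1 hs).1
  rw [← kdim_translate t⁻¹ (part α S), ← kdim_translate t⁻¹ (part α S'),
    kdim_subgroup (quo S t) _ hSK, kdim_subgroup (quo S t) _ hS'K]
  set β := res (quo S t) ((part α S).mapDomain (fun x => t⁻¹ * x)) with hβ
  have hle : ∀ k ∈ β.support, m ≤ e k := by
    intro k hk
    rw [hβ, mem_res_support] at hk
    obtain ⟨s, hs, hks⟩ := hsupp S _ hk
    have := hm s hs
    have h2 : k = ⟨_, mem_quo S t s hs⟩ := Subtype.ext hks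
    rw [h2]; exact this
  have h1 := lead e he β m hle
  rw [kdim_eq_vd, kdim_eq_vd]
  have h2 : β.filter (fun k => e k = m)
      = res (quo S t) ((part α S').mapDomain (fun x => t⁻¹ * x)) := by
    ext k
    rw [Finsupp.filter_apply, hβ, res_apply, res_apply]
    have hk : (k : G) = (fun x : G => t⁻¹ * x) (t * k) := by simp
    rw [hk, Finsupp.mapDomain_apply hinj, Finsupp.mapDomain_apply hinj]
    by_cases hks : t * (k : G) ∈ S
    · have h3 : (⟨_, mem_quo S t _ hks⟩ : quo S t) = k := Subtype.ext (by simp)
      by_cases hem : e k = m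
      · rw [if_pos hem, part_apply_mem α S _ hks, part_apply_mem α S']
        exact (hS' _).2 ⟨hks, by rw [h3]; exact hem⟩
      · rw [if_neg hem, part_apply_not α S']
        intro h4
        obtain ⟨h5, h6⟩ := (hS' _).1 h4
        rw [h3] at h6
        exact hem h6
    · rw [part_apply_not α S _ hks, part_apply_not α S']
      · simp
      · intro h4
        exact hks ((hS' _).1 h4).1
  rw [← h2]
  exact h1

end

/-- A finitely generated group with infinite abelianization maps onto an infinite cyclic group. -/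
theorem exists_hom {K : Type u} [Group K] (hK : Group.FG K) (hinf : ¬ Finite (Abelianization K)) :
    ∃ φ : K →* Multiplicative ℤ, ∃ k, φ k ≠ 1 := by
  have h1 : Group.FG (Abelianization K) := by
    have := hK
    exact Group.fg_of_surjective (f := (Abelianization.of : K →* Abelianization K))
      (QuotientGroup.mk_surjective)
  have h2 : AddGroup.FG (Additive (Abelianization K)) := inferInstance
  have h3 : Module.Finite ℤ (Additive (Abelianization K)) := Module.Finite.iff_addGroup_fg.2 h2
  have h4 : ¬ Module.IsTorsion ℤ (Additive (Abelianization K)) := by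
    intro h
    apply hinf
    have := Module.finite_of_fg_torsion (Additive (Abelianization K)) h
    exact (Additive.ofMul (α := Abelianization K)).finite_iff.2 this
  set M := Additive (Abelianization K) with hM
  obtain ⟨x, hx⟩ : ∃ x : M, x ∉ Submodule.torsion ℤ M := by
    by_contra hcon
    push Not at hcon
    apply h4
    intro x
    have := hcon x
    rw [Submodule.mem_torsion_iff] at this
    exact this
  have hfree : Module.Free ℤ (M ⧸ Submodule.torsion ℤ M) := inferInstance
  let b := Module.Free.chooseBasis ℤ (M ⧸ Submodule.torsion ℤ M)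
  have hx' : (Submodule.torsion ℤ M).mkQ x ≠ 0 := by
    intro h
    apply hx
    rw [Submodule.mkQ_apply, Submodule.Quotient.mk_eq_zero] at h
    exact h
  obtain ⟨i, hi⟩ : ∃ i, b.repr ((Submodule.torsion ℤ M).mkQ x) i ≠ 0 := by
    by_contra hcon
    push Not at hcon
    apply hx'
    apply b.repr.injective
    ext i
    rw [hcon i, map_zero]
    rfl
  let L : M →ₗ[ℤ] ℤ := (b.coord i).comp (Submodule.torsion ℤ M).mkQ
  let φ0 : Abelianization K →* Multiplicative ℤ := AddMonoidHom.toMultiplicativeRight
    (L.toAddMonoidHom)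
  obtain ⟨k, hk⟩ := QuotientGroup.mk_surjective (Additive.toMul x)
  refine ⟨φ0.comp Abelianization.of, k, ?_⟩
  intro h
  apply hi
  have h5 : φ0 (Additive.toMul x) = 1 := (congrArg φ0 hk).symm.trans h
  have h6 : L x = 0 := h5
  exact h6

section
variable {G : Type u} [Group G]

theorem part_eq (α : G →₀ ℂ) : part α α.support = α := by
  ext x
  by_cases hx : x ∈ α.support
  · exact part_apply_mem _ _ _ hx
  · rw [part_apply_not _ _ _ hx, Finsupp.notMem_support_iff.1 hx]

/-- descent to a part which generates a group with finite abelianization -/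
theorem descent (α : G →₀ ℂ) : ∀ (n : ℕ) (S : Finset G), S.card = n → S.Nonempty →
    ∃ S' ⊆ S, ∃ t ∈ S', Finite (Abelianization (quo S' t)) ∧
      kdim (part α S) ≤ kdim (part α S') := by
  classical
  intro n
  induction n using Nat.strong_induction_on with
  | _ n ih =>
    intro S hS hne
    obtain ⟨t, ht⟩ := hne
    by_cases hfin : Finite (Abelianization (quo S t))
    · exact ⟨S, subset_rfl, t, ht, hfin, le_rfl⟩
    · have hfg : Group.FG (quo S t) := (Group.fg_iff_subgroup_fg _).2 (quo_fg S t)
      obtain ⟨φ, k0, hk0⟩ := exists_hom hfg hfin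
      let e : quo S t → ℤ := fun k => Multiplicative.toAdd (φ k)
      have he : ∀ x y, e (x * y) = e x + e y := by
        intro x y
        simp only [e]
        rw [map_mul, toAdd_mul]
      let v : S → ℤ := fun s => e ⟨_, mem_quo S t s.1 s.2⟩
      obtain ⟨s0, -, hmin⟩ := Finset.exists_min_image (Finset.univ : Finset S) v
        ⟨⟨t, ht⟩, Finset.mem_univ _⟩
      let S' : Finset G := (Finset.univ.filter (fun s : S => v s = v s0)).image Subtype.val
      have hS' : ∀ s, s ∈ S' ↔ ∃ hs : s ∈ S, e ⟨_, mem_quo S t s hs⟩ = v s0 := by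
        intro s
        simp only [S', Finset.mem_image, Finset.mem_filter, Finset.mem_univ, true_and]
        constructor
        · rintro ⟨a, ha, rfl⟩
          exact ⟨a.2, ha⟩
        · rintro ⟨hs, h⟩
          exact ⟨⟨s, hs⟩, h, rfl⟩
      have hsub : S' ⊆ S := fun s hs => ((hS' s).1 hs).1
      have hss : S' ≠ S := by
        intro heq
        -- then `φ` is trivial
        have hall : ∀ s (hs : s ∈ S), e ⟨_, mem_quo S t s hs⟩ = v s0 := by
          intro s hs
          have h1 : s ∈ S' := by rw [heq]; exact hs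
          exact ((hS' s).1 h1).2
        have he1 : e 1 = 0 := by
          have := he 1 1
          rw [mul_one] at this
          omega
        have h0 : v s0 = 0 := by
          rw [← hall t ht]
          have h2 : (⟨_, mem_quo S t t ht⟩ : quo S t) = 1 := Subtype.ext (by simp)
          rw [h2, he1]
        have hker : quo S t ≤ (φ.ker).map (quo S t).subtype := by
          unfold quo
          rw [Subgroup.closure_le]
          rintro x ⟨s, hs, rfl⟩
          refine ⟨⟨_, mem_quo S t s hs⟩, ?_, rfl⟩
          have h2 := hall s hs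
          rw [h0] at h2
          change φ _ = 1
          exact Multiplicative.toAdd.injective h2
        obtain ⟨k1, hk1, hk2⟩ := hker k0.2
        apply hk0
        have : k1 = k0 := Subtype.ext hk2
        rw [← this]
        exact hk1
      have hcard : S'.card < n := by
        rw [← hS]
        exact Finset.card_lt_card (Finset.ssubset_iff_subset_ne.2 ⟨hsub, hss⟩)
      have hne' : S'.Nonempty := ⟨s0, (hS' _).2 ⟨s0.2, rfl⟩⟩
      obtain ⟨S'', h1, t', h2, h3, h4⟩ := ih _ hcard S' rfl hne'
      refine ⟨S'', h1.trans hsub, t', h2, h3, le_trans ?_ h4⟩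
      exact face α S t e he (v s0) (fun s hs => hmin ⟨s, hs⟩ (Finset.mem_univ _)) S' hS'

theorem injective_iff_kdim (α : G →₀ ℂ) : Function.Injective (cop α) ↔ kdim α ≤ 0 := by
  rw [kdim_eq_vd]
  constructor
  · intro h
    rw [vd_ker_of_injective _ h]
  · intro h
    exact injective_of_vd_eq_zero _ (cop_eqv _) h

end

end Pool.Agent.NH47.AZ
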